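import Pool.Agent.Helper41_IR.Stmts

/-!
# IR: module FOUR, finite Fourier analysis
-/

set_option autoImplicit false

open scoped BigOperators

noncomputable section

namespace Pool.Agent.IR.H77

open Matrix Pool.Agent.Anderson Pool.Agent.Loc Pool.Agent.BED

variable {d M : ℕ} [NeZero M]

theorem Mpos : (0 : ℝ) < (M : ℝ) ^ d := by
  have : 0 < M := Nat.pos_of_ne_zero (NeZero.ne M)
  positivity

theorem card_tor : (Fintype.card (Tor d M) : ℝ) = (M : ℝ) ^ d := by
  have h : Fintype.card (Tor d M) = M ^ d := by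
    change Fintype.card (Fin d → ZMod M) = M ^ d
    rw [Fintype.card_fun, Fintype.card_fin, ZMod.card]
  rw [h]
  push_cast
  rfl

theorem sum_sin (x : Tor d M) : ∑ θ : Tor d M, Real.sin (ph θ x) = 0 := by
  have h : ∑ θ : Tor d M, Real.sin (ph θ x) = -∑ θ : Tor d M, Real.sin (ph θ x) := by
    conv_lhs => rw [← Equiv.sum_comp (Equiv.neg (Tor d M))]
    rw [← Finset.sum_neg_distrib]
    refine Finset.sum_congr rfl fun θ _ => ?_
    rw [Equiv.neg_apply, sin_ph_neg_left]
  linarith

theorem exists_cos_ne {x : Tor d M} (hx : x ≠ 0) : ∃ θ : Tor d M, Real.cos (ph θ x) ≠ 1 := by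
  obtain ⟨i, hi⟩ := Function.ne_iff.1 hx
  refine ⟨ev i, fun h => ?_⟩
  rw [cos_ph_of (a := Pi.single i 1) (b := fun j => (x j).valMinAbs) (fun j => ?_)
    (fun j => ZMod.coe_valMinAbs _)] at h
  · unfold phI at h
    rw [Finset.sum_eq_single i] at h
    · rw [Pi.single_eq_same] at h
      obtain ⟨n, hn⟩ := (Real.cos_eq_one_iff _).1 h
      have hM : (M : ℝ) ≠ 0 := by exact_mod_cast NeZero.ne M
      have h1 : (n : ℝ) * M = ((x i).valMinAbs : ℝ) := by
        rw [eq_div_iff hM] at hn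
        have hpi : (2 * Real.pi) ≠ 0 := by positivity
        have : 2 * Real.pi * ((n : ℝ) * M) = 2 * Real.pi * ((x i).valMinAbs : ℝ) := by
          push_cast at hn
          linarith
        exact mul_left_cancel₀ hpi this
      have h2 : n * (M : ℤ) = (x i).valMinAbs := by exact_mod_cast h1
      apply hi
      have h3 : (((x i).valMinAbs : ℤ) : ZMod M) = 0 := by
        rw [← h2]
        push_cast
        simp
      rw [ZMod.coe_valMinAbs] at h3
      exact h3
    · intro j _ hj
      rw [Pi.single_eq_of_ne hj]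
      simp
    · intro h
      exact absurd (Finset.mem_univ i) h
  · unfold ev
    by_cases hj : j = i
    · subst hj
      simp
    · rw [Pi.single_eq_of_ne hj, Pi.single_eq_of_ne hj]
      simp

theorem cos_ph_add_left (θ η x : Tor d M) :
    Real.cos (ph (θ + η) x) = Real.cos (ph θ x + ph η x) := by
  rw [ph_comm, cos_ph_add, ph_comm x θ, ph_comm x η]

theorem cos_ph_sub_left (θ η x : Tor d M) :
    Real.cos (ph (θ - η) x) = Real.cos (ph θ x - ph η x) := by
  rw [ph_comm, cos_ph_sub, ph_comm x θ, ph_comm x η]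

theorem sin_ph_add_left (θ η x : Tor d M) :
    Real.sin (ph (θ + η) x) = Real.sin (ph θ x + ph η x) := by
  rw [ph_comm, sin_ph_add, ph_comm x θ, ph_comm x η]

theorem sin_ph_sub_left (θ η x : Tor d M) :
    Real.sin (ph (θ - η) x) = Real.sin (ph θ x - ph η x) := by
  rw [ph_comm, sin_ph_sub, ph_comm x θ, ph_comm x η]

theorem sum_cos [DecidableEq (Tor d M)] (x : Tor d M) :
    ∑ θ : Tor d M, Real.cos (ph θ x) = if x = 0 then (M : ℝ) ^ d else 0 := by
  split_ifs with h
  · subst h
    simp only [ph_zero_right, Real.cos_zero, Finset.sum_const, Finset.card_univ, nsmul_eq_mul,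
      mul_one]
    exact card_tor
  · obtain ⟨η, hη⟩ := exists_cos_ne h
    have h1 : ∑ θ : Tor d M, Real.cos (ph θ x) =
        (∑ θ : Tor d M, Real.cos (ph θ x)) * Real.cos (ph η x) := by
      conv_lhs => rw [← Equiv.sum_comp (Equiv.addRight η)]
      simp only [Equiv.coe_addRight, cos_ph_add_left, Real.cos_add, Finset.sum_sub_distrib,
        ← Finset.sum_mul, sum_sin, zero_mul, sub_zero]
    have h2 : (∑ θ : Tor d M, Real.cos (ph θ x)) * (1 - Real.cos (ph η x)) = 0 := by
      linarith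
    rcases mul_eq_zero.1 h2 with h3 | h3
    · exact h3
    · exact absurd (by linarith) hη

theorem sum_cos_right [DecidableEq (Tor d M)] (θ : Tor d M) :
    ∑ x : Tor d M, Real.cos (ph θ x) = if θ = 0 then (M : ℝ) ^ d else 0 := by
  rw [← sum_cos θ]
  exact Finset.sum_congr rfl fun x _ => by rw [ph_comm]

theorem sum_sin_right (θ : Tor d M) : ∑ x : Tor d M, Real.sin (ph θ x) = 0 := by
  rw [← sum_sin θ]
  exact Finset.sum_congr rfl fun x _ => by rw [ph_comm]

section orth

variable [DecidableEq (Tor d M)]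

theorem orth_cc (θ η : Tor d M) : ∑ x : Tor d M, Real.cos (ph θ x) * Real.cos (ph η x) =
    (M : ℝ) ^ d / 2 * ((if θ = η then 1 else 0) + if θ = -η then 1 else 0) := by
  have h1 : ∀ x : Tor d M, Real.cos (ph θ x) * Real.cos (ph η x) =
      1 / 2 * (Real.cos (ph (θ - η) x) + Real.cos (ph (θ + η) x)) := by
    intro x
    rw [cos_ph_sub_left, cos_ph_add_left, Real.cos_sub, Real.cos_add]
    ring
  rw [Finset.sum_congr rfl fun x _ => h1 x, ← Finset.mul_sum, Finset.sum_add_distrib,
    sum_cos_right, sum_cos_right]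
  simp only [sub_eq_zero, add_eq_zero_iff_eq_neg]
  split_ifs <;> ring

theorem orth_ss (θ η : Tor d M) : ∑ x : Tor d M, Real.sin (ph θ x) * Real.sin (ph η x) =
    (M : ℝ) ^ d / 2 * ((if θ = η then 1 else 0) - if θ = -η then 1 else 0) := by
  have h1 : ∀ x : Tor d M, Real.sin (ph θ x) * Real.sin (ph η x) =
      1 / 2 * (Real.cos (ph (θ - η) x) - Real.cos (ph (θ + η) x)) := by
    intro x
    rw [cos_ph_sub_left, cos_ph_add_left, Real.cos_sub, Real.cos_add]
    ring
  rw [Finset.sum_congr rfl fun x _ => h1 x, ← Finset.mul_sum, Finset.sum_sub_distrib,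
    sum_cos_right, sum_cos_right]
  simp only [sub_eq_zero, add_eq_zero_iff_eq_neg]
  split_ifs <;> ring

omit [DecidableEq (Tor d M)] in
theorem orth_cs (θ η : Tor d M) :
    ∑ x : Tor d M, Real.cos (ph θ x) * Real.sin (ph η x) = 0 := by
  have h1 : ∀ x : Tor d M, Real.cos (ph θ x) * Real.sin (ph η x) =
      1 / 2 * (Real.sin (ph (θ + η) x) - Real.sin (ph (θ - η) x)) := by
    intro x
    rw [sin_ph_sub_left, sin_ph_add_left, Real.sin_sub, Real.sin_add]
    ring
  rw [Finset.sum_congr rfl fun x _ => h1 x, ← Finset.mul_sum, Finset.sum_sub_distrib,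
    sum_sin_right, sum_sin_right]
  ring

end orth

/-- the vectors of the Fourier basis -/
def cv (θ : Tor d M) : Tor d M → ℝ := fun x => Real.cos (ph θ x)
def sv (θ : Tor d M) : Tor d M → ℝ := fun x => Real.sin (ph θ x)

theorem mulM_apply (u : Tor d M → ℝ) (x y : Tor d M) :
    mulM u x y = (∑ θ, u θ * (cv θ x * cv θ y + sv θ x * sv θ y)) / (M : ℝ) ^ d := by
  unfold mulM
  rw [Matrix.of_apply]
  congr 1
  refine Finset.sum_congr rfl fun θ _ => ?_
  rw [cos_ph_sub, Real.cos_sub]
  rfl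

theorem mulM_symm (u : Tor d M → ℝ) : (mulM u)ᵀ = mulM u := by
  ext x y
  rw [Matrix.transpose_apply, mulM_apply, mulM_apply]
  congr 1
  exact Finset.sum_congr rfl fun θ _ => by ring

theorem sum_ite_half {u : Tor d M → ℝ} (hu : ∀ θ, u (-θ) = u θ) [DecidableEq (Tor d M)]
    (g : Tor d M → ℝ) (hg : ∀ θ, g (-θ) = g θ) (η : Tor d M) :
    ∑ θ, u θ * g θ * ((if θ = η then 1 else 0) + if θ = -η then 1 else 0) =
      2 * (u η * g η) := by
  simp only [mul_add, Finset.sum_add_distrib, mul_ite, mul_one, mul_zero, Finset.sum_ite_eq',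
    Finset.mem_univ, if_true, hu, hg]
  ring

theorem sum_ite_half' {u : Tor d M → ℝ} (hu : ∀ θ, u (-θ) = u θ) [DecidableEq (Tor d M)]
    (g : Tor d M → ℝ) (hg : ∀ θ, g (-θ) = -g θ) (η : Tor d M) :
    ∑ θ, u θ * g θ * ((if θ = η then 1 else 0) - if θ = -η then 1 else 0) =
      2 * (u η * g η) := by
  simp only [mul_sub, Finset.sum_sub_distrib, mul_ite, mul_one, mul_zero, Finset.sum_ite_eq',
    Finset.mem_univ, if_true, hu, hg]
  ring

theorem mulM_cv {u : Tor d M → ℝ} (hu : ∀ θ, u (-θ) = u θ) (η : Tor d M) :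
    mulM u *ᵥ cv η = u η • cv η := by
  classical
  funext x
  rw [Pi.smul_apply, smul_eq_mul]
  have h1 : (mulM u *ᵥ cv η) x =
      (∑ θ, u θ * (cv θ x * ∑ y, cv θ y * cv η y + sv θ x * ∑ y, sv θ y * cv η y)) /
        (M : ℝ) ^ d := by
    change ∑ y, mulM u x y * cv η y = _
    simp only [mulM_apply, div_mul_eq_mul_div, ← Finset.sum_div, Finset.sum_mul]
    congr 1
    rw [Finset.sum_comm]
    refine Finset.sum_congr rfl fun θ _ => ?_
    rw [Finset.mul_sum, Finset.mul_sum, ← Finset.sum_add_distrib, Finset.mul_sum]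
    exact Finset.sum_congr rfl fun y _ => by ring
  rw [h1]
  have h2 : ∀ θ : Tor d M, ∑ y, cv θ y * cv η y =
      (M : ℝ) ^ d / 2 * ((if θ = η then 1 else 0) + if θ = -η then 1 else 0) :=
    fun θ => orth_cc θ η
  have h3 : ∀ θ : Tor d M, ∑ y, sv θ y * cv η y = 0 := fun θ => by
    rw [← orth_cs η θ]
    exact Finset.sum_congr rfl fun y _ => mul_comm _ _
  simp only [h2, h3, mul_zero, add_zero]
  have h4 := sum_ite_half hu (fun θ => cv θ x) (fun θ => cos_ph_neg_left θ x) η
  have h5 : ∑ θ, u θ * (cv θ x * ((M : ℝ) ^ d / 2 *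
      ((if θ = η then 1 else 0) + if θ = -η then 1 else 0))) =
      (M : ℝ) ^ d / 2 * ∑ θ, u θ * cv θ x *
        ((if θ = η then 1 else 0) + if θ = -η then 1 else 0) := by
    rw [Finset.mul_sum]
    exact Finset.sum_congr rfl fun θ _ => by ring
  rw [h5, h4]
  have := (Mpos (d := d) (M := M)).ne'
  field_simp

theorem mulM_sv {u : Tor d M → ℝ} (hu : ∀ θ, u (-θ) = u θ) (η : Tor d M) :
    mulM u *ᵥ sv η = u η • sv η := by
  classical
  funext x
  rw [Pi.smul_apply, smul_eq_mul]
  have h1 : (mulM u *ᵥ sv η) x =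
      (∑ θ, u θ * (cv θ x * ∑ y, cv θ y * sv η y + sv θ x * ∑ y, sv θ y * sv η y)) /
        (M : ℝ) ^ d := by
    change ∑ y, mulM u x y * sv η y = _
    simp only [mulM_apply, div_mul_eq_mul_div, ← Finset.sum_div, Finset.sum_mul]
    congr 1
    rw [Finset.sum_comm]
    refine Finset.sum_congr rfl fun θ _ => ?_
    rw [Finset.mul_sum, Finset.mul_sum, ← Finset.sum_add_distrib, Finset.mul_sum]
    exact Finset.sum_congr rfl fun y _ => by ring
  rw [h1]
  have h2 : ∀ θ : Tor d M, ∑ y, sv θ y * sv η y =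
      (M : ℝ) ^ d / 2 * ((if θ = η then 1 else 0) - if θ = -η then 1 else 0) :=
    fun θ => orth_ss θ η
  have h3 : ∀ θ : Tor d M, ∑ y, cv θ y * sv η y = 0 := fun θ => orth_cs θ η
  simp only [h2, h3, mul_zero, zero_add]
  have h4 := sum_ite_half' hu (fun θ => sv θ x) (fun θ => sin_ph_neg_left θ x) η
  have h5 : ∑ θ, u θ * (sv θ x * ((M : ℝ) ^ d / 2 *
      ((if θ = η then 1 else 0) - if θ = -η then 1 else 0))) =
      (M : ℝ) ^ d / 2 * ∑ θ, u θ * sv θ x *
        ((if θ = η then 1 else 0) - if θ = -η then 1 else 0) := by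
    rw [Finset.mul_sum]
    exact Finset.sum_congr rfl fun θ _ => by ring
  rw [h5, h4]
  have := (Mpos (d := d) (M := M)).ne'
  field_simp

theorem ft_eq (w : Tor d M → ℝ) (θ : Tor d M) :
    ft w θ = (∑ x, ∑ y, w x * w y * Real.cos (ph θ (x - y))) / (M : ℝ) ^ d := by
  unfold ft
  congr 1
  rw [sq, sq, Finset.sum_mul_sum, Finset.sum_mul_sum, ← Finset.sum_add_distrib]
  refine Finset.sum_congr rfl fun x _ => ?_
  rw [← Finset.sum_add_distrib]
  refine Finset.sum_congr rfl fun y _ => ?_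
  rw [cos_ph_sub, Real.cos_sub]
  ring

theorem ft_ip (w : Tor d M → ℝ) (θ : Tor d M) :
    ft w θ = (ip w (cv θ) ^ 2 + ip w (sv θ) ^ 2) / (M : ℝ) ^ d := rfl

theorem four : FourStmt := by
  intro d M _
  classical
  have hM := (Mpos (d := d) (M := M))
  refine ⟨fun w => ?_, ?_, fun u1 u2 h1 h2 => ?_, fun u w => ?_, fun u w θ hu => ?_,
    fun b hb => ?_, fun w θ => ?_⟩
  · simp only [ft_eq, ← Finset.sum_div]
    rw [Finset.sum_comm]
    have h1 : ∀ x : Tor d M, ∑ θ : Tor d M, ∑ y, w x * w y * Real.cos (ph θ (x - y)) =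
        (M : ℝ) ^ d * w x ^ 2 := by
      intro x
      rw [Finset.sum_comm]
      simp only [← Finset.mul_sum, sum_cos, sub_eq_zero]
      simp only [mul_ite, mul_zero, Finset.sum_ite_eq, Finset.mem_univ, if_true]
      ring
    rw [Finset.sum_congr rfl fun x _ => h1 x, ← Finset.mul_sum]
    unfold sqn
    field_simp
  · ext x y
    unfold mulM
    rw [Matrix.of_apply]
    simp only [one_mul, sum_cos, sub_eq_zero]
    rw [Matrix.one_apply]
    split_ifs
    · exact div_self hM.ne'
    · simp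
  · ext x z
    rw [Matrix.mul_apply, mulM_apply (fun θ => u1 θ * u2 θ)]
    have h3 : ∀ y : Tor d M, mulM u1 x y * mulM u2 y z =
        (∑ θ, u2 θ * (mulM u1 x y * cv θ y * cv θ z + mulM u1 x y * sv θ y * sv θ z)) /
          (M : ℝ) ^ d := by
      intro y
      rw [mulM_apply u2, mul_div_assoc', Finset.mul_sum]
      congr 1
      exact Finset.sum_congr rfl fun θ _ => by ring
    rw [Finset.sum_congr rfl fun y _ => h3 y, ← Finset.sum_div]
    congr 1
    rw [Finset.sum_comm]
    refine Finset.sum_congr rfl fun θ _ => ?_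
    rw [← Finset.mul_sum, Finset.sum_add_distrib, ← Finset.sum_mul, ← Finset.sum_mul]
    have h4 : ∑ y, mulM u1 x y * cv θ y = u1 θ * cv θ x := congrFun (mulM_cv h1 θ) x
    have h5 : ∑ y, mulM u1 x y * sv θ y = u1 θ * sv θ x := congrFun (mulM_sv h1 θ) x
    rw [h4, h5]
    ring
  · have h1 : ip w (mulM u *ᵥ w) =
        (∑ x, ∑ y, ∑ θ, u θ * (w x * w y * Real.cos (ph θ (x - y)))) / (M : ℝ) ^ d := by
      unfold ip
      rw [Finset.sum_div]
      refine Finset.sum_congr rfl fun x _ => ?_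
      change w x * ∑ y, mulM u x y * w y = _
      rw [Finset.mul_sum, Finset.sum_div]
      refine Finset.sum_congr rfl fun y _ => ?_
      unfold mulM
      rw [Matrix.of_apply, div_mul_eq_mul_div, mul_div_assoc', Finset.sum_mul, Finset.mul_sum]
      congr 1
      exact Finset.sum_congr rfl fun θ _ => by ring
    rw [h1]
    have h2 : ∀ x : Tor d M, ∑ y, ∑ θ, u θ * (w x * w y * Real.cos (ph θ (x - y))) =
        ∑ θ, ∑ y, u θ * (w x * w y * Real.cos (ph θ (x - y))) := fun x => Finset.sum_comm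
    rw [Finset.sum_congr rfl fun x _ => h2 x, Finset.sum_comm, Finset.sum_div]
    refine Finset.sum_congr rfl fun θ _ => ?_
    rw [ft_eq, mul_div_assoc', Finset.mul_sum]
    congr 1
    exact Finset.sum_congr rfl fun x _ => by rw [Finset.mul_sum]
  · rw [ft_ip, ft_ip]
    have h1 : ip (mulM u *ᵥ w) (cv θ) = u θ * ip w (cv θ) := by
      rw [ip_comm, ip_mulVec, mulM_symm, mulM_cv hu, ip_smul_left, ip_comm]
    have h2 : ip (mulM u *ᵥ w) (sv θ) = u θ * ip w (sv θ) := by
      rw [ip_comm, ip_mulVec, mulM_symm, mulM_sv hu, ip_smul_left, ip_comm]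
    rw [h1, h2]
    ring
  · ext x y
    unfold cvM mulM bh
    rw [Matrix.of_apply, Matrix.of_apply]
    have h1 : ∑ θ : Tor d M, (∑ z, b z * Real.cos (ph θ z)) * Real.cos (ph θ (x - y)) =
        ∑ z, b z * ∑ θ : Tor d M, Real.cos (ph z θ) * Real.cos (ph (x - y) θ) := by
      simp only [Finset.sum_mul, Finset.mul_sum]
      rw [Finset.sum_comm]
      refine Finset.sum_congr rfl fun z _ => Finset.sum_congr rfl fun θ _ => ?_
      rw [ph_comm θ z, ph_comm θ (x - y)]
      ring
    rw [h1]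
    simp only [orth_cc]
    have h2 := sum_ite_half hb (fun _ => 1) (fun _ => rfl) (x - y)
    have h3 : ∑ z, b z * ((M : ℝ) ^ d / 2 * ((if z = x - y then 1 else 0) +
        if z = -(x - y) then 1 else 0)) =
        (M : ℝ) ^ d / 2 * ∑ z, b z * 1 * ((if z = x - y then 1 else 0) +
          if z = -(x - y) then 1 else 0) := by
      rw [Finset.mul_sum]
      exact Finset.sum_congr rfl fun z _ => by ring
    rw [h3, h2, ← neg_sub x y, hb]
    field_simp
  · rw [ft_eq, mul_div_cancel₀ _ hM.ne', sq, Finset.sum_mul_sum]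
    refine Finset.sum_le_sum fun x _ => Finset.sum_le_sum fun y _ => ?_
    calc w x * w y * Real.cos (ph θ (x - y)) ≤ |w x * w y * Real.cos (ph θ (x - y))| :=
          le_abs_self _
      _ = |w x| * |w y| * |Real.cos (ph θ (x - y))| := by rw [abs_mul, abs_mul]
      _ ≤ |w x| * |w y| * 1 :=
          mul_le_mul_of_nonneg_left (Real.abs_cos_le_one _) (by positivity)
      _ = |w x| * |w y| := mul_one _

end Pool.Agent.IR.H77
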