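import Pool.Agent.Helper41_IR.Stmts

/-!
# IR: module GAP
-/

set_option autoImplicit false

open scoped BigOperators

noncomputable section

namespace Pool.Agent.IR.H77

open Matrix Pool.Agent.Anderson Pool.Agent.Loc Pool.Agent.BED

variable {d M : ℕ} [NeZero M]

theorem nrm_sq' (f : Tor d M → ℝ) : H32.nrm f ^ 2 = sqn f := H32.nrm_sq f

theorem dst_neg (u : Tor d M → ℝ) (s : Tor d M) : H32.dst u (-s) = H32.dst u s := by
  have h : H32.dst u (-s) ^ 2 = H32.dst u s ^ 2 := by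
    unfold H32.dst
    rw [H32.nrm_sq, H32.nrm_sq]
    rw [← Equiv.sum_comp (Equiv.addRight s) (fun x => (u (x + -s) - u x) ^ 2)]
    refine Finset.sum_congr rfl fun x _ => ?_
    simp only [Equiv.coe_addRight, add_neg_cancel_right]
    ring
  exact (pow_left_inj₀ (H32.nrm_nonneg _) (H32.nrm_nonneg _) two_ne_zero).1 h

theorem dst_zsmul (u : Tor d M → ℝ) (n : ℤ) (s : Tor d M) :
    H32.dst u (n • s) ≤ (n.natAbs : ℝ) * H32.dst u s := by
  rcases Int.natAbs_eq n with h | h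
  · rw [h, natCast_zsmul, Int.natAbs_natCast]
    exact H32.dst_nsmul u _ s
  · rw [h, neg_zsmul, dst_neg, natCast_zsmul, Int.natAbs_neg, Int.natAbs_natCast]
    exact H32.dst_nsmul u _ s

theorem vec_sub_eq {l : ℕ} (s t : Fin d → Fin l) :
    (H32.vec s : Tor d M) - H32.vec t = ∑ i, (((s i : ℕ) : ℤ) - ((t i : ℕ) : ℤ)) • (ev i : Tor d M) := by
  rw [H32.vec_eq, H32.vec_eq, ← Finset.sum_sub_distrib]
  refine Finset.sum_congr rfl fun i _ => ?_
  rw [sub_zsmul, natCast_zsmul, natCast_zsmul, sub_eq_add_neg]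

theorem dst_vec_sub {l : ℕ} (u : Tor d M → ℝ) (s t : Fin d → Fin l) :
    H32.dst u (H32.vec s - H32.vec t) ^ 2 ≤ d * (l : ℝ) ^ 2 * energy u := by
  have h1 : H32.dst u (H32.vec s - H32.vec t) ≤
      ∑ i : Fin d, ((((s i : ℕ) : ℤ) - ((t i : ℕ) : ℤ)).natAbs : ℝ) * H32.dst u (ev i) := by
    rw [vec_sub_eq]
    refine (Finset.le_sum_of_subadditive (H32.dst u) (H32.dst_zero u).le (H32.dst_add u) _ _).trans ?_
    exact Finset.sum_le_sum fun i _ => dst_zsmul u _ _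
  have h0 : 0 ≤ H32.dst u (H32.vec s - H32.vec t) := H32.nrm_nonneg _
  calc H32.dst u (H32.vec s - H32.vec t) ^ 2 ≤
        (∑ i : Fin d, ((((s i : ℕ) : ℤ) - ((t i : ℕ) : ℤ)).natAbs : ℝ) * H32.dst u (ev i)) ^ 2 :=
        pow_le_pow_left₀ h0 h1 2
    _ ≤ (∑ i : Fin d, ((((s i : ℕ) : ℤ) - ((t i : ℕ) : ℤ)).natAbs : ℝ) ^ 2) *
        ∑ i : Fin d, H32.dst u (ev i) ^ 2 :=
        Finset.sum_mul_sq_le_sq_mul_sq _ _ _
    _ ≤ (∑ _i : Fin d, (l : ℝ) ^ 2) * ∑ i : Fin d, H32.dst u (ev i) ^ 2 := by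
        refine mul_le_mul_of_nonneg_right ?_ (Finset.sum_nonneg fun i _ => sq_nonneg _)
        refine Finset.sum_le_sum fun i _ => ?_
        have h2 : (((s i : ℕ) : ℤ) - ((t i : ℕ) : ℤ)).natAbs ≤ l := by
          have := (s i).2
          have := (t i).2
          omega
        have : ((((s i : ℕ) : ℤ) - ((t i : ℕ) : ℤ)).natAbs : ℝ) ≤ l := by exact_mod_cast h2
        exact pow_le_pow_left₀ (by positivity) this 2
    _ = d * (l : ℝ) ^ 2 * energy u := by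
        rw [H32.dst_sq_sum]
        simp

/-- the Poincare identity for the averaging operator -/
theorem sqn_QM_eq {l : ℕ} (hl : 1 ≤ l) (u : Tor d M → ℝ) :
    ((l : ℝ) ^ d) ^ 2 * (sqn u - sqn (QM d M l *ᵥ u)) =
      1 / 2 * ∑ k : Fin d → Fin l, ∑ k' : Fin d → Fin l,
        H32.dst u (H32.vec k' - H32.vec k) ^ 2 := by
  have hl0 : (0 : ℝ) < (l : ℝ) ^ d := by
    have : 0 < l := hl
    positivity
  have h1 : ((l : ℝ) ^ d) ^ 2 * sqn (QM d M l *ᵥ u) =
      ∑ k : Fin d → Fin l, ∑ k' : Fin d → Fin l,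
        ∑ x, u x * u (x + (H32.vec k' - H32.vec k)) := by
    unfold sqn
    rw [Finset.mul_sum]
    have h2 : ∀ x : Tor d M, ((l : ℝ) ^ d) ^ 2 * (QM d M l *ᵥ u) x ^ 2 =
        ∑ k : Fin d → Fin l, ∑ k' : Fin d → Fin l, u (x + H32.vec k) * u (x + H32.vec k') := by
      intro x
      rw [QM_mulVec, div_pow, mul_div_cancel₀ _ (by positivity), sq, Finset.sum_mul_sum]
    rw [Finset.sum_congr rfl fun x _ => h2 x, Finset.sum_comm]
    refine Finset.sum_congr rfl fun k _ => ?_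
    rw [Finset.sum_comm]
    refine Finset.sum_congr rfl fun k' _ => ?_
    rw [← Equiv.sum_comp (Equiv.addRight (H32.vec k : Tor d M))
      (fun x => u x * u (x + (H32.vec k' - H32.vec k)))]
    refine Finset.sum_congr rfl fun x _ => ?_
    simp only [Equiv.coe_addRight]
    congr 2
    abel
  have h3 : ((l : ℝ) ^ d) ^ 2 * sqn u =
      ∑ k : Fin d → Fin l, ∑ k' : Fin d → Fin l,
        (∑ x, u x * u (x + (H32.vec k' - H32.vec k)) +
          1 / 2 * H32.dst u (H32.vec k' - H32.vec k) ^ 2) := by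
    have : ∀ k k' : Fin d → Fin l, ∑ x, u x * u (x + (H32.vec k' - H32.vec k)) +
          1 / 2 * H32.dst u (H32.vec k' - H32.vec k) ^ 2 = sqn u :=
      fun k k' => (H32.one_shift u _).symm
    simp only [this, Finset.sum_const, Finset.card_univ, nsmul_eq_mul, card_cube]
    ring
  rw [mul_sub, h1, h3]
  simp only [Finset.sum_add_distrib, Finset.mul_sum]
  ring

theorem sqn_sub_QM_le {l : ℕ} (hl : 1 ≤ l) (u : Tor d M → ℝ) {K : ℝ}
    (hK : ∀ k k' : Fin d → Fin l, H32.dst u (H32.vec k' - H32.vec k) ^ 2 ≤ K) :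
    sqn u - sqn (QM d M l *ᵥ u) ≤ 1 / 2 * K := by
  have hl0 : (0 : ℝ) < (l : ℝ) ^ d := by
    have : 0 < l := hl
    positivity
  have h1 := sqn_QM_eq hl u
  have h2 : ∑ k : Fin d → Fin l, ∑ k' : Fin d → Fin l,
      H32.dst u (H32.vec k' - H32.vec k) ^ 2 ≤ ((l : ℝ) ^ d) ^ 2 * K := by
    refine (Finset.sum_le_sum fun k _ => Finset.sum_le_sum fun k' _ => hK k k').trans_eq ?_
    simp only [Finset.sum_const, Finset.card_univ, nsmul_eq_mul, card_cube]
    ring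
  have h3 : ((l : ℝ) ^ d) ^ 2 * (sqn u - sqn (QM d M l *ᵥ u)) ≤
      ((l : ℝ) ^ d) ^ 2 * (1 / 2 * K) := by
    rw [h1]
    linarith
  exact le_of_mul_le_mul_left h3 (by positivity)

theorem sqn_mul_le {c : ℝ} (hc : 0 ≤ c) (g w : Tor d M → ℝ) (hg : ∀ x, |g x| ≤ c) :
    H32.nrm (fun x => g x * w x) ≤ c * H32.nrm w := by
  have h : H32.nrm (fun x => g x * w x) ^ 2 ≤ (c * H32.nrm w) ^ 2 := by
    rw [mul_pow, H32.nrm_sq, H32.nrm_sq, Finset.mul_sum]
    refine Finset.sum_le_sum fun x _ => ?_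
    rw [mul_pow, ← sq_abs (g x)]
    exact mul_le_mul_of_nonneg_right (pow_le_pow_left₀ (abs_nonneg _) (hg x) 2) (sq_nonneg _)
  exact (pow_le_pow_iff_left₀ (H32.nrm_nonneg _) (mul_nonneg hc (H32.nrm_nonneg _))
    two_ne_zero).1 h

theorem dst_mul_le {μ : ℝ} (hμ : 0 < μ) (D w : Tor d M → ℝ) (hD : ∀ x, |D x - μ| ≤ 1 / 50 * μ)
    (s : Tor d M) :
    H32.dst (fun x => D x * w x) s ^ 2 ≤
      26 / 25 * μ ^ 2 * H32.dst w s ^ 2 + 26 / 625 * μ ^ 2 * sqn w := by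
  have h1 : H32.dst (fun x => D x * w x) s ≤ μ * H32.dst w s + 1 / 25 * μ * H32.nrm w := by
    have e : (fun x => D (x + s) * w (x + s) - D x * w x) =
        (fun x => (fun _ => μ) x * (w (x + s) - w x)) +
          ((fun x => (D (x + s) - μ) * (fun y => w (y + s)) x) +
            (fun x => (-(D x - μ)) * w x)) := by
      funext x
      simp only [Pi.add_apply]
      ring
    unfold H32.dst
    rw [e]
    refine (H32.nrm_add _ _).trans (add_le_add ?_ ((H32.nrm_add _ _).trans ?_))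
    · exact sqn_mul_le hμ.le (fun _ => μ) (fun x => w (x + s) - w x)
        fun x => (abs_of_pos hμ).le
    · have h2 := sqn_mul_le (c := 1 / 50 * μ) (by positivity) (fun x => D (x + s) - μ)
        (fun y => w (y + s)) fun x => hD (x + s)
      have h3 := sqn_mul_le (c := 1 / 50 * μ) (by positivity) (fun x => -(D x - μ)) w
        fun x => by rw [abs_neg]; exact hD x
      rw [H32.nrm_shift] at h2
      linarith
  have h0 : 0 ≤ H32.dst (fun x => D x * w x) s := H32.nrm_nonneg _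
  have ha : 0 ≤ H32.dst w s := H32.nrm_nonneg _
  have hb : 0 ≤ H32.nrm w := H32.nrm_nonneg _
  have h2 := pow_le_pow_left₀ h0 h1 2
  refine h2.trans ?_
  rw [← nrm_sq']
  nlinarith [sq_nonneg (μ * H32.dst w s - μ * H32.nrm w)]

theorem gap_key {l : ℕ} {z μ : ℝ} {V : Tor d M → ℝ} (hl : 1 ≤ l) (hμ : 0 < μ)
    (hF : FlatD (1 / 50) z μ V) (u : Tor d M → ℝ) :
    17 / 10 * sqn u ≤ d * (l : ℝ) ^ 2 * ip u (AM z V *ᵥ u) + 2 * sqn (QM d M l *ᵥ u) := by
  have hDp : ∀ x, 0 < DD z V x := fun x => DD_pos hF.2.1 x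
  have hDl : ∀ x, 49 / 50 * μ ≤ DD z V x := fun x => by
    have := hF.lower x
    linarith
  set w : Tor d M → ℝ := fun x => u x / DD z V x with hw
  have hu : (fun x => DD z V x * w x) = u := by
    funext x
    rw [hw]
    exact mul_div_cancel₀ _ (hDp x).ne'
  -- the energy
  have hE : (49 / 50 * μ) ^ 2 * energy w ≤ ip u (AM z V *ᵥ u) := by
    have h1 := AM_doob z V (DD z V) w
    have h2 : ip u (AM z V *ᵥ u) =
        ∑ x, (DD z V x * w x) * (AM z V *ᵥ fun y => DD z V y * w y) x := by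
      rw [hu]
      refine Finset.sum_congr rfl fun x _ => ?_
      rw [← congrFun hu x]
    rw [h2, h1]
    have h3 : 0 ≤ ∑ x, DD z V x * (AM z V *ᵥ DD z V) x * w x ^ 2 :=
      Finset.sum_nonneg fun x _ => by
        rw [AM_DD hF.2.1, Pi.one_apply, mul_one]
        exact mul_nonneg (hDp x).le (sq_nonneg _)
    have h4 : (49 / 50 * μ) ^ 2 * energy w ≤
        ∑ x, ∑ i : Fin d, DD z V x * DD z V (x + ev i) * (w (x + ev i) - w x) ^ 2 := by
      unfold energy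
      rw [Finset.mul_sum]
      refine Finset.sum_le_sum fun x _ => ?_
      rw [Finset.mul_sum]
      refine Finset.sum_le_sum fun i _ => ?_
      refine mul_le_mul_of_nonneg_right ?_ (sq_nonneg _)
      rw [sq]
      exact mul_le_mul (hDl x) (hDl _) (by positivity) (hDp x).le
    linarith
  have hN : (49 / 50 * μ) ^ 2 * sqn w ≤ sqn u := by
    rw [← hu]
    unfold sqn
    rw [Finset.mul_sum]
    refine Finset.sum_le_sum fun x _ => ?_
    change (49 / 50 * μ) ^ 2 * w x ^ 2 ≤ (DD z V x * w x) ^ 2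
    rw [mul_pow (DD z V x)]
    exact mul_le_mul_of_nonneg_right (pow_le_pow_left₀ (by positivity) (hDl x) 2) (sq_nonneg _)
  have hE0 : 0 ≤ energy w :=
    Finset.sum_nonneg fun x _ => Finset.sum_nonneg fun i _ => sq_nonneg _
  have h5 := sqn_sub_QM_le hl u (K := 26 / 25 * μ ^ 2 * (d * (l : ℝ) ^ 2 * energy w) +
    26 / 625 * μ ^ 2 * sqn w) (fun k k' => by
      have h6 := dst_mul_le hμ (DD z V) w hF.2.2 (H32.vec k' - H32.vec k)
      rw [hu] at h6
      refine h6.trans (add_le_add ?_ le_rfl)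
      exact mul_le_mul_of_nonneg_left (dst_vec_sub w k' k) (by positivity))
  have hQ0 : 0 ≤ sqn (QM d M l *ᵥ u) := sqn_nonneg _
  have hu0 : 0 ≤ sqn u := sqn_nonneg _
  have hd0 : (0 : ℝ) ≤ d * (l : ℝ) ^ 2 := by positivity
  have h7 : d * (l : ℝ) ^ 2 * ((49 / 50 * μ) ^ 2 * energy w) ≤
      d * (l : ℝ) ^ 2 * ip u (AM z V *ᵥ u) := mul_le_mul_of_nonneg_left hE hd0
  -- numbers
  have h8 : μ ^ 2 * (d * (l : ℝ) ^ 2 * energy w) ≤
      2500 / 2401 * (d * (l : ℝ) ^ 2 * ip u (AM z V *ᵥ u)) := by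
    have e : d * (l : ℝ) ^ 2 * ((49 / 50 * μ) ^ 2 * energy w) =
        2401 / 2500 * (μ ^ 2 * (d * (l : ℝ) ^ 2 * energy w)) := by ring
    rw [e] at h7
    linarith
  have h9 : μ ^ 2 * sqn w ≤ 2500 / 2401 * sqn u := by
    have e : (49 / 50 * μ) ^ 2 * sqn w = 2401 / 2500 * (μ ^ 2 * sqn w) := by ring
    rw [e] at hN
    linarith
  have h10 : sqn u - sqn (QM d M l *ᵥ u) ≤
      1 / 2 * (26 / 25 * (2500 / 2401 * (d * (l : ℝ) ^ 2 * ip u (AM z V *ᵥ u))) +
        26 / 625 * (2500 / 2401 * sqn u)) := by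
    refine h5.trans ?_
    have e : 26 / 25 * μ ^ 2 * (d * (l : ℝ) ^ 2 * energy w) + 26 / 625 * μ ^ 2 * sqn w =
        26 / 25 * (μ ^ 2 * (d * (l : ℝ) ^ 2 * energy w)) + 26 / 625 * (μ ^ 2 * sqn w) := by ring
    rw [e]
    linarith
  linarith

theorem AP_mulVec (l : ℕ) (E z : ℝ) (V u : Tor d M → ℝ) :
    ip u (AP l E V *ᵥ u) = ip u (AM z V *ᵥ u) - (z - E) * sqn u +
      sL d l * sqn (QM d M l *ᵥ u) := by
  have h1 : AM E V = AM z V - (z - E) • (1 : Matrix (Tor d M) (Tor d M) ℝ) := by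
    rw [← AM_sub, sub_sub_cancel]
  unfold AP
  rw [h1, Matrix.add_mulVec, Matrix.sub_mulVec, Matrix.smul_mulVec, Matrix.smul_mulVec,
    Matrix.one_mulVec, ip_add_right, ip_sub_right, ip_smul_right, ip_smul_right, ip_self,
    sqn_mulVec_eq]

theorem AP_symm (l : ℕ) (E : ℝ) (V : Tor d M → ℝ) (x y : Tor d M) :
    AP l E V x y = AP l E V y x := by
  unfold AP
  rw [Matrix.add_apply, Matrix.add_apply, AM_symm, Matrix.smul_apply, Matrix.smul_apply]
  congr 2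
  rw [Matrix.mul_apply, Matrix.mul_apply]
  refine Finset.sum_congr rfl fun w _ => ?_
  rw [Matrix.transpose_apply, Matrix.transpose_apply, mul_comm]

theorem gap : GapStmt := by
  intro d M l _ z μ E V hP hF
  have hd : (1 : ℝ) ≤ d := by exact_mod_cast hP.hd
  have hl : (1 : ℝ) ≤ l := by exact_mod_cast hP.hl
  have hdl : (0 : ℝ) < d * (l : ℝ) ^ 2 := by positivity
  have hsdl : sL d l * (d * (l : ℝ) ^ 2) = 2 := by
    unfold sL
    field_simp
  have hs0 : 0 < sL d l := by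
    unfold sL
    positivity
  have c1 : ∀ u : Tor d M → ℝ, 17 / 10 / (d * (l : ℝ) ^ 2) * sqn u ≤
      ip u (AM z V *ᵥ u) + sL d l * sqn (QM d M l *ᵥ u) := by
    intro u
    have h := gap_key hP.hl hP.hμ hF u
    rw [div_mul_eq_mul_div, div_le_iff₀ hdl, add_mul]
    have e : sL d l * sqn (QM d M l *ᵥ u) * (d * (l : ℝ) ^ 2) = 2 * sqn (QM d M l *ᵥ u) := by
      rw [← hsdl]
      ring
    rw [e]
    linarith
  have hzE : z - E ≤ 7 / 10 / (d * (l : ℝ) ^ 2) := by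
    rw [le_div_iff₀ hdl]
    have h := hP.hE2
    have h2 : (z - E) * (l : ℝ) ^ 2 * d ≤ 7 / (10 * d) * d :=
      mul_le_mul_of_nonneg_right h (by positivity)
    have h3 : (7 : ℝ) / (10 * d) * d = 7 / 10 := by field_simp
    rw [h3] at h2
    linarith
  have c3 : ∀ u : Tor d M → ℝ, 1 / (d * (l : ℝ) ^ 2) * sqn u ≤ ip u (AP l E V *ᵥ u) := by
    intro u
    rw [AP_mulVec l E z V u]
    have h1 := c1 u
    have h2 : (z - E) * sqn u ≤ 7 / 10 / (d * (l : ℝ) ^ 2) * sqn u :=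
      mul_le_mul_of_nonneg_right hzE (sqn_nonneg _)
    have h3 : 17 / 10 / (d * (l : ℝ) ^ 2) * sqn u - 7 / 10 / (d * (l : ℝ) ^ 2) * sqn u =
        1 / (d * (l : ℝ) ^ 2) * sqn u := by
      ring
    linarith
  have c2 : (AP l E V).PosDef := by
    refine posDef_of_real (AP_symm l E V) fun u hu => ?_
    have h1 := c3 u
    have h2 : 0 < 1 / (d * (l : ℝ) ^ 2) * sqn u := mul_pos (by positivity) (sqn_pos hu)
    exact lt_of_lt_of_le h2 h1
  have c4 : ∀ f : Tor d M → ℝ, sqn (GP l E V *ᵥ f) ≤ (d * (l : ℝ) ^ 2) ^ 2 * sqn f := by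
    intro f
    set u : Tor d M → ℝ := GP l E V *ᵥ f with hu
    have h1 := c3 u
    have h2 : AP l E V *ᵥ u = f := mulVec_inv c2 f
    rw [h2] at h1
    have h3 := ip_sq_le u f
    rcases (sqn_nonneg u).eq_or_lt with h0 | h0
    · rw [← h0]
      exact mul_nonneg (by positivity) (sqn_nonneg _)
    · have h4 : 0 ≤ 1 / (d * (l : ℝ) ^ 2) * sqn u := by positivity
      have h5 := pow_le_pow_left₀ h4 h1 2
      have h6 : (1 / (d * (l : ℝ) ^ 2) * sqn u) ^ 2 ≤ sqn u * sqn f := h5.trans h3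
      have h7 : (1 / (d * (l : ℝ) ^ 2) * sqn u) ^ 2 * (d * (l : ℝ) ^ 2) ^ 2 = sqn u * sqn u := by
        field_simp
      have h8 : sqn u * sqn u ≤ sqn u * ((d * (l : ℝ) ^ 2) ^ 2 * sqn f) := by
        rw [← h7]
        calc (1 / (d * (l : ℝ) ^ 2) * sqn u) ^ 2 * (d * (l : ℝ) ^ 2) ^ 2
            ≤ sqn u * sqn f * (d * (l : ℝ) ^ 2) ^ 2 :=
              mul_le_mul_of_nonneg_right h6 (by positivity)
          _ = sqn u * ((d * (l : ℝ) ^ 2) ^ 2 * sqn f) := by ring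
      exact le_of_mul_le_mul_left h8 h0
  have hGs : ∀ x y, GP l E V x y = GP l E V y x := fun x y => inv_symm c2 x y
  have hGt : (GP l E V)ᵀ = GP l E V := by
    ext x y
    rw [Matrix.transpose_apply, hGs]
  have c5 : ∀ x y, BB l E V x y = BB l E V y x := by
    have h1 : (BB l E V)ᵀ = BB l E V := by
      unfold BB
      rw [Matrix.transpose_smul, Matrix.transpose_mul, Matrix.transpose_mul,
        Matrix.transpose_transpose, hGt, Matrix.mul_assoc]
    intro x y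
    conv_lhs => rw [← h1]
    rfl
  have hB : ∀ w : Tor d M → ℝ, BB l E V *ᵥ w =
      sL d l • (QM d M l *ᵥ (GP l E V *ᵥ ((QM d M l)ᵀ *ᵥ w))) := by
    intro w
    unfold BB
    rw [Matrix.smul_mulVec, Matrix.mulVec_mulVec, Matrix.mulVec_mulVec, Matrix.mul_assoc]
  have hBi : ∀ w : Tor d M → ℝ, ip w (BB l E V *ᵥ w) =
      sL d l * ip ((QM d M l)ᵀ *ᵥ w) (GP l E V *ᵥ ((QM d M l)ᵀ *ᵥ w)) := by
    intro w
    rw [hB, ip_smul_right, ip_mulVec]
  have hGpos : (GP l E V).PosDef := c2.inv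
  refine ⟨c1, c2, c3, c4, c5, fun w => ?_, fun w => ?_, fun w => ?_⟩
  · rw [hBi]
    exact mul_nonneg hs0.le (nonneg_of_posDef hGpos _)
  · rw [hBi]
    set f : Tor d M → ℝ := (QM d M l)ᵀ *ᵥ w with hf
    have hfw : sqn f ≤ sqn w := sqn_QMt_le hP.hl w
    have h1 := c4 f
    have h2 := abs_ip_le f (GP l E V *ᵥ f)
    have h3 := le_abs_self (ip f (GP l E V *ᵥ f))
    have h4 : Real.sqrt (sqn (GP l E V *ᵥ f)) ≤ d * (l : ℝ) ^ 2 * Real.sqrt (sqn f) := by
      refine (Real.sqrt_le_sqrt h1).trans_eq ?_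
      rw [Real.sqrt_mul (by positivity), Real.sqrt_sq hdl.le]
    have h5 : Real.sqrt (sqn f) * Real.sqrt (sqn (GP l E V *ᵥ f)) ≤ d * (l : ℝ) ^ 2 * sqn f := by
      calc Real.sqrt (sqn f) * Real.sqrt (sqn (GP l E V *ᵥ f))
          ≤ Real.sqrt (sqn f) * (d * (l : ℝ) ^ 2 * Real.sqrt (sqn f)) :=
            mul_le_mul_of_nonneg_left h4 (Real.sqrt_nonneg _)
        _ = d * (l : ℝ) ^ 2 * (Real.sqrt (sqn f) * Real.sqrt (sqn f)) := by ring
        _ = d * (l : ℝ) ^ 2 * sqn f := by rw [Real.mul_self_sqrt (sqn_nonneg _)]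
    calc sL d l * ip f (GP l E V *ᵥ f) ≤ sL d l * (d * (l : ℝ) ^ 2 * sqn w) := by
          refine mul_le_mul_of_nonneg_left ?_ hs0.le
          have h6 : d * (l : ℝ) ^ 2 * sqn f ≤ d * (l : ℝ) ^ 2 * sqn w :=
            mul_le_mul_of_nonneg_left hfw hdl.le
          linarith
      _ = 2 * sqn w := by rw [← mul_assoc, hsdl]
  · rw [hB, sqn_smul]
    have h1 := sqn_QM_le hP.hl (GP l E V *ᵥ ((QM d M l)ᵀ *ᵥ w))
    have h2 := c4 ((QM d M l)ᵀ *ᵥ w)
    have h3 := sqn_QMt_le hP.hl w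
    calc sL d l ^ 2 * sqn (QM d M l *ᵥ (GP l E V *ᵥ ((QM d M l)ᵀ *ᵥ w)))
        ≤ sL d l ^ 2 * ((d * (l : ℝ) ^ 2) ^ 2 * sqn w) := by
          refine mul_le_mul_of_nonneg_left ?_ (by positivity)
          refine h1.trans (h2.trans ?_)
          exact mul_le_mul_of_nonneg_left h3 (by positivity)
      _ = (sL d l * (d * (l : ℝ) ^ 2)) ^ 2 * sqn w := by ring
      _ = 4 * sqn w := by rw [hsdl]; norm_num

end Pool.Agent.IR.H77
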